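import Mathlib
import Pool.Agent.Helper46.BMY.CFin

/-!
# MP_872606_gt: cyclic covers branched along symplectic curves

A symplectic curve of degree `d = m + 1` over the base of the Hirzebruch surface `F_r`, disjoint
from the section of square `-r` (for `r = 1` also a curve of degree `d` in the projective plane), is
given by its braid monodromy factorisation `Δ^(2 r) = ∏ g_j (σ_a ⋯ σ_{a + k - 2}) ^ e g_j⁻¹` in
Artin's braid group, one factor for every special point `y ^ k = x ^ e`.
-/

set_option autoImplicit false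

namespace Pool.Agent.Helper14.Old872.CyclicCovers

open Pool.Agent.Helper46.BMY

/-- **Main theorem.** Let `2 ≤ n`, let `d = m + 1 = n f ≥ 3` and let all special points of the curve
be of the types allowed in `Typ n r d`. Then the minimal resolution of the cyclic cover of degree
`n` of `F_r` branched along the curve satisfies `c_1² ≤ 3 c_2`, and so does that of the projective
plane (`r = 1`) unless `n ∈ {4, 6}` and `d ≤ 12`.

If there are only vertical tangents, nodes, cusps, tacnodes, points `y ^ 3 = x ^ e` with `e ≤ 3`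
(among them the ordinary triple points) and, for `n ≠ 4`, ordinary quadruple points, then there is a
gap: `14 c_1² + n r d (d - 15) ≤ 42 c_2`. -/
theorem result (m n f r : ℕ) (l : List (Sg m)) (hn : 2 ≤ n) (hm : 2 ≤ m) (hr : 1 ≤ r)
    (hd : m + 1 = n * f) (hl : IsCurve m r l) (h : ∀ P ∈ l, Typ n r (m + 1) P.k P.e) :
    cOneSqF n f r l ≤ 3 * cTwoF n f r l ∧
    (r = 1 → ¬ ((n = 4 ∨ n = 6) ∧ m + 1 ≤ 12) → cOneSq n f l ≤ 3 * cTwo n f l) ∧
    ((∀ P ∈ l, P.k = 2 ∧ P.e ≤ 4 ∨ P.k = 3 ∧ P.e ≤ 3 ∨ P.k = 4 ∧ P.e = 4 ∧ n ≠ 4) →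
      14 * cOneSqF n f r l + n * r * (m + 1) * (m + 1 - 15) ≤ 42 * cTwoF n f r l ∧
        (r = 1 → 14 * cOneSq n f l + n * (m + 1) * (m + 1 - 15) ≤ 42 * cTwo n f l)) := by
  obtain ⟨h1, h2⟩ := main hn hm hr hd hl h
  refine ⟨h1, fun h3 h4 => h2 h3 fun h5 => h4 ?_, fun h3 => ?_⟩
  · rcases h5 with ⟨rfl, h6⟩ | ⟨rfl, h6⟩
    · exact ⟨Or.inl rfl, by omega⟩
    · exact ⟨Or.inr rfl, by omega⟩
  · exact (basic hn hm hr hd hl h3).2.2

end Pool.Agent.Helper14.Old872.CyclicCovers
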