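import Mathlib
import Pool.Agent.Helper14.BI.Defs
import Pool.Agent.Helper14.BI.Main

/-!
# MP_872606_gt: coverings of an arbitrary symplectic four-manifold, branched along immersed surfaces

`X` is any closed symplectic four-manifold with canonical class `K` and Euler number `e`, and the `C_i` are
immersed symplectic surfaces of genus `g_i`, of any square, which meet themselves and each other positively
in ordinary multiple points. `V = H_2(X; ℝ)`, `B` is the intersection form, `t i` is the class of `C_i`,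
`b p i` is the number of branches of `C_i` through the point `p` (`Arr`: the adjunction formula and the
intersection numbers). The points of `Bl` are blown up, the others are ordinary double points. For the
weights `w_i = 1 - 1 / (branching order along C_i)` and `z_p = 1 - 1 / (branching order along the exceptional
sphere over p)` the numbers `cOneSq`, `cTwo` are the Chern numbers of a branched covering, divided by the
degree; `T` is the class `∑ w_i C_i` and `n_i = nrm = 2 g_i - 2 - K . C_i` is the Euler number of the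
normal bundle of the immersion `C_i`.
-/

set_option autoImplicit false

open Finset

namespace Pool.Agent.Helper14.Old872.ImmersedSurfaces

open Pool.Agent.Helper14.BI

/-- **Main theorem: points cost at most `κ`, pairs of branches gain at least `δ`.** Let `0 ≤ δ ≤ 1 / 2` and
let the costs `κ_p` be admissible (`Cost`). Let `P = pairs` be the sum of `w_i w_j` over all ordered pairs
of different branches through a common point, so `P = T² - ∑ w_i² n_i`. Then
`c_1² + (3 e - K²) + curv + δ P ≤ 3 c_2 + ∑ κ_p`. If the `w_i` are at most `1`, then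
(a) `c_1² + (3 e - K²) + δ T² ≤ 3 c_2 + 2 ∑ w_i c_i + ∑ κ_p` for all `c_i` with
`c_i ≥ K . C_i + 3 - 3 g_i` and `4 c_i ≥ K . C_i + 6 - 6 g_i`; for example `c_i = 0` if `g_i ≥ 1` and
`K . C_i ≤ 3 g_i - 3`, or `c_i = ω . C_i` for a class `ω` with `ω . C_i ≥ 1`, `ω . C_i ≥ K . C_i + 3`;
(b) `c_1² + (3 e - K²) + δ (Y / N)² ≤ 3 c_2 + 2 R Y + 2 W + ∑ κ_p` if `- n_i - g_i ≤ R √|C_i²|`, where
`Y = star` is the sum of the `w_i √|C_i²|`, `N` is at least the rank of the span of the `C_i` and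
`W = low` is the sum of the `w_i` over the surfaces with `g_i = 0` or `g_i + n_i < 1`.
Admissible costs of the points of multiplicity `k` and total weight `s`: `s² ((k - 4) + 4 δ (k - 1)) / (4 k)`
for all real `z_p`, so `0` if `δ = 0` and all multiplicities are at most `4`, or if `δ = 1 / 8` and they are
at most `3`; the `θ`-cost, linear in the weights for `δ = 0`, for `z_p ≥ 0`; and `0` with
`δ = 1 / (2 r²)` if all weights are at least `1 - 1 / (4 r)` and there are at most `r`-fold points. -/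
theorem result (V : Type) [AddCommGroup V] [Module ℝ V] (B : V →ₗ[ℝ] V →ₗ[ℝ] ℝ)
    (hB : ∀ x y, B x y = B y x) (k m N : ℕ) (K : V) (b : Fin m → Fin k → ℕ) (g : Fin k → ℕ)
    (t : Fin k → V) (h : Arr B K b g t) (hN1 : 1 ≤ N)
    (hN : Module.finrank ℝ (Submodule.span ℝ (Set.range t)) ≤ N) (e : ℝ)
    (Bl : Finset (Fin m)) (hBl : ∀ p ∉ Bl, mult b p = 2) (w : Fin k → ℝ) (z : Fin m → ℝ)
    (hw : ∀ i, 0 ≤ w i) (T : V) (hT : T = ∑ i, w i • t i) (c₁sq c₂ : ℝ)
    (hc₁ : c₁sq = cOneSq b (B (K + T) (K + T)) Bl w z) (hc₂ : c₂ = cTwo b e g Bl w z) :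
    (∀ δ : ℝ, 0 ≤ δ → δ ≤ 1 / 2 → ∀ κ : Fin m → ℝ, Cost b Bl w z δ κ →
      c₁sq + (3 * e - B K K) + curv B K g t w + δ * pairs b w ≤ 3 * c₂ + ∑ p ∈ Bl, κ p ∧
      ((∀ i, w i ≤ 1) →
        (∀ c : Fin k → ℝ, (∀ i, B K (t i) + 3 - 3 * g i ≤ c i ∧
            B K (t i) + 6 - 6 * g i ≤ 4 * c i) →
          c₁sq + (3 * e - B K K) + δ * B T T ≤
            3 * c₂ + 2 * ∑ i, w i * c i + ∑ p ∈ Bl, κ p) ∧
        ∀ R : ℝ, 0 ≤ R → (∀ i, -nrm B K g t i - g i ≤ R * √|B (t i) (t i)|) →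
          c₁sq + (3 * e - B K K) + δ * (star B t w / N) ^ 2 ≤
            3 * c₂ + 2 * R * star B t w + 2 * low B K g t w + ∑ p ∈ Bl, κ p)) ∧
    pairs b w = B T T - ∑ i, w i ^ 2 * nrm B K g t i ∧
    (star B t w / N) ^ 2 +
      ∑ i, w i ^ 2 * (B (t i) (t i) - nrm B K g t i - |B (t i) (t i)| / N) ≤ pairs b w ∧
    (∀ δ : ℝ, 0 ≤ δ → Cost b Bl w z δ fun p =>
      (((mult b p : ℝ) - 4) + 4 * δ * (mult b p - 1)) / (4 * mult b p) * sw b w p ^ 2) ∧
    (∀ δ : ℝ, 0 ≤ δ → (∀ p ∈ Bl, 4 * δ * ((mult b p : ℝ) - 1) ≤ 4 - mult b p) →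
      Cost b Bl w z δ 0) ∧
    (∀ (δ : ℝ) (θ : Fin m → ℝ), (∀ p ∈ Bl, 0 ≤ z p) → (∀ p, 0 ≤ θ p ∧ θ p ≤ 1) →
      Cost b Bl w z δ fun p => δ * (sw b w p ^ 2 - qw b w p) +
        ((2 - 2 * θ p) * sw b w p + (mult b p * θ p ^ 2 / 4 - 1) * qw b w p)) ∧
    (∀ r : ℕ, 1 ≤ r → (∀ p ∈ Bl, mult b p ≤ r) →
      (∀ i, 1 - 1 / (4 * (r : ℝ)) ≤ w i ∧ w i ≤ 1) →
      (∀ p ∈ Bl, 1 - 1 / (4 * (r : ℝ)) ≤ z p ∧ z p ≤ 1) →
      Cost b Bl w z (1 / (2 * (r : ℝ) ^ 2)) 0) :=
  Pool.Agent.Helper14.BI.result V B hB k m N K b g t h hN1 hN e Bl hBl w z hw T hT c₁sq c₂ hc₁ hc₂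

end Pool.Agent.Helper14.Old872.ImmersedSurfaces
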