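import Pool.Agent.Helper8.PW.Final

/-!
# The Bogomolov-Miyaoka-Yau inequality for coverings branched along large pseudoline arrangements

Let `W` be an arrangement of `d` pseudolines, given by a wiring diagram
(`Pool.Agent.Helper8.PL.Wiring`). By Ruberman and Starkston it extends to an arrangement of
symplectic spheres in `CP^2` in the class of a line, which meet like complex lines. Give the
spheres weights `w i` and blow up a set `Bl` of vertices which contains all the vertices of
multiplicity at least three, with weights `z k` on the exceptional spheres. The orbifold Chern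
numbers `c1sq` and `c2` are defined in `Pool.Agent.Helper8.PL.Chern`; if all the weights are of the
form `1 - 1 / n` and `Y` is a covering of the blown up plane which is branched with these orders,
they are the Chern numbers of the symplectic manifold `Y` divided by the degree of the covering.
-/

namespace Pool.Agent.Helper14.Old872.PseudolineBMY

open Pool.Agent.Helper8.PL Wiring Finset

/-- For every `ε > 0` there is a `κ > 0` such that for every arrangement of pseudolines and all
weights `w i` on the lines which are in `[ε, 1]` or almost equal (`(1 - κ) x ≤ w i ≤ x` with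
`x ≤ 1`), with the sum `X ≥ 1 / κ`, and all real weights `z k` on the exceptional spheres,
nonnegative over the vertices `k` at which the sum `S k` of the weights of the lines through `k`
is more than `16`, one has `c1sq + κ X (X - 2 - s) ≤ 3 c2` for every `s` in `[0, X - 2]` with
`S k - z k ≤ s` for all the vertices with `S k > 3 X / 4`; and `c1sq ≤ (3 - κ) c2` if moreover
all `w i ≥ ε`, `s ≤ (1 - ε) X` and all the `z k` are in `[0, 1]`.

(If there is no vertex with `S k > 3 X / 4` one can take `s = 0`. If `X - S k + z k < 2` for a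
vertex then the pencil of lines through it gives a fibration of `Y` by spheres.) -/
theorem result : ∀ ε : ℝ, 0 < ε → ∃ κ : ℝ, 0 < κ ∧ ∀ (d : ℕ) (W : Wiring d) (w : Fin d → ℝ)
    (z : ℕ → ℝ) (Bl : Finset ℕ) (X s : ℝ), X = ∑ i, w i →
      ((∀ i, ε ≤ w i ∧ w i ≤ 1) ∨ ∃ x ≤ 1, ∀ i, (1 - κ) * x ≤ w i ∧ w i ≤ x) →
        1 ≤ κ * X → Bl ⊆ range W.M → (∀ k < W.M, k ∉ Bl → W.mult k = 2) →
          (∀ k ∈ Bl, 16 < ∑ i ∈ W.B k, w i → 0 ≤ z k) → 0 ≤ s → s ≤ X - 2 →
            (∀ k ∈ Bl, 3 / 4 * X < ∑ i ∈ W.B k, w i → ∑ i ∈ W.B k, w i ≤ s + z k) →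
              c1sq W w z Bl + κ * (X * (X - 2 - s)) ≤ 3 * c2 W w z Bl ∧
              ((∀ i, ε ≤ w i) → (∀ k ∈ Bl, 0 ≤ z k ∧ z k ≤ 1) → s ≤ (1 - ε) * X →
                c1sq W w z Bl ≤ (3 - κ) * c2 W w z Bl) := by
  intro ε hε
  obtain ⟨κ, hκ, H⟩ := Pool.Agent.Helper8.PW.pw_main hε
  exact ⟨κ, hκ, fun _ W => H W⟩

end Pool.Agent.Helper14.Old872.PseudolineBMY
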