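import Mathlib
import Pool.Agent.Helper81.SBA.V.Cp

/-!
# MP_872606_gt: symplectic line arrangements with at most quadruple points

A symplectic line arrangement of `d = m + 1` lines is given by its braid monodromy factorisation
`Δ² = ∏ g_j T_{k_j} g_j⁻¹` in Artin's braid group.
-/

set_option autoImplicit false

namespace Pool.Agent.Helper14.Old872.SymplecticArrangements

open Pool.Agent.Helper81.SBA

/-- **Main theorem.** Let `Δ² = ∏ g_j T_{k_j} g_j⁻¹` be a factorisation of the full twist on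
`d = m + 1` strands into conjugates of full twists of `k_j ≤ 4` adjacent strands.

If `d ≥ 20000`, then `t_2 + t_3 ≥ d`, and the Chern numbers of all Hirzebruch covers satisfy
`c_1² ≤ 3 c_2`.

For every `ε > 0` and all large `d`: `t_2 + t_3 ≥ (3/2 - ε) d` for even `d` and `≥ (7/6 - ε) d` for
odd `d`, and the orbifold Chern numbers satisfy `c_1² + x² d / 100 ≤ 3 c_2` for all real weights on
the exceptional spheres and all weights in `[19 x / 20, x]` on the lines if `d` is even, and for one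
weight `x` on the lines and one real weight `z` on the exceptional spheres if `d` is odd. -/
theorem result :
    (∀ (m : ℕ) (l : List (Pt m)), 20000 ≤ m + 1 → IsArr m l → (∀ P ∈ l, P.k ≤ 4) →
      m + 1 ≤ tk l 2 + tk l 3 ∧ ∀ n : ℤ, 2 ≤ n →
        cOneSq n (m + 1) (tk l 2) l.length ((l.map fun P => P.k).sum : ℕ) ≤
          3 * cTwo n (m + 1) (tk l 2) l.length ((l.map fun P => P.k).sum : ℕ)) ∧
    ∀ ε : ℝ, 0 < ε → ∃ N : ℕ, ∀ m : ℕ, N ≤ m → ∀ l : List (Pt m), IsArr m l →
      (∀ P ∈ l, P.k ≤ 4) →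
        (Even (m + 1) → (3 / 2 - ε) * (m + 1) ≤ (tk l 2 : ℝ) + tk l 3 ∧
          ∀ x : ℝ, 0 < x → ∀ w : Fin (m + 1) → ℝ, (∀ i, 19 / 20 * x ≤ w i ∧ w i ≤ x) →
            ∀ (z : Fin l.length → ℝ) (Bl : Finset (Fin l.length)),
              (∀ j, j ∉ Bl → (l.get j).k = 2) →
                orbOneSq l w z Bl + x ^ 2 * (m + 1) / 100 ≤ 3 * orbTwo l w z Bl) ∧
        (Odd (m + 1) → (7 / 6 - ε) * (m + 1) ≤ (tk l 2 : ℝ) + tk l 3 ∧
          ∀ x : ℝ, 0 < x → ∀ (z : ℝ) (Bl : Finset (Fin l.length)),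
            (∀ j, j ∉ Bl → (l.get j).k = 2) →
              orbOneSq l (fun _ => x) (fun _ => z) Bl + x ^ 2 * (m + 1) / 100 ≤
                3 * orbTwo l (fun _ => x) (fun _ => z) Bl) :=
  ⟨fun _ _ hd hl h4 => main hd hl h4, main_orb⟩

end Pool.Agent.Helper14.Old872.SymplecticArrangements
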